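import Pool.Agent.Q214.MP59a.Count

set_option autoImplicit false

namespace Pool.Agent.Q214.MP59a

open Filter Topology

/-- Asymptotic form: for fixed `ζ`, `d` and large `r` a good tuple exists with high probability. -/
theorem whp (ζ d : ℕ) (hζ : 1 ≤ ζ) (C2 η : ℝ) (hC2 : 0 < C2) (hη : 0 < η) :
    ∃ r0 : ℕ, ∀ r : ℕ, r0 ≤ r → ∀ b : ℕ, r ≤ b * ζ → ((b * ζ : ℕ) : ℝ) ≤ C2 * r →
      ∀ n m : ℕ, m = r / (ζ * d + 1) → ∀ e : Mem ζ d × Fin m → Fin n, Function.Injective e →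
      1 - η ≤ av (fun ω : Outc n b ζ => ind (∃ τ, Good ω (vr e τ))) := by
  set M : ℕ := ζ * d + 1 with hM
  have hM1 : 1 ≤ M := by omega
  have hM0 : (0 : ℝ) < M := by exact_mod_cast hM1
  have hζ0 : (0 : ℝ) < ζ := by exact_mod_cast hζ
  set K : ℝ := 1 + 2 * M * C2 with hK
  have hK1 : 1 ≤ K := by rw [hK]; have : 0 < 2 * (M : ℝ) * C2 := by positivity
                         linarith
  set A : ℝ := ((ζ * (ζ * (d * (ζ * (ζ * d + 1)))) : ℕ) : ℝ) with hA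
  set B : ℝ := 2 * M * K ^ (d * ζ) with hB
  set C : ℝ := ζ * K ^ d with hC
  have hA0 : 0 ≤ A := by rw [hA]; positivity
  have hB0 : 0 < B := by positivity
  have hC0 : 0 < C := by positivity
  -- the limit
  have hinv : Tendsto (fun r : ℕ => ((r : ℝ))⁻¹) atTop (𝓝 0) := tendsto_inv_atTop_nhds_zero_nat
  have hlim : Tendsto (fun r : ℕ => (1 - A * (r : ℝ)⁻¹) ^ 2 /
      (B * (r : ℝ)⁻¹ + (1 + C * (r : ℝ)⁻¹) ^ ζ)) atTop (𝓝 1) := by
    have h1 : Tendsto (fun r : ℕ => (1 - A * (r : ℝ)⁻¹) ^ 2) atTop (𝓝 ((1 - A * 0) ^ 2)) :=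
      (tendsto_const_nhds.sub (hinv.const_mul A)).pow 2
    have h2 : Tendsto (fun r : ℕ => B * (r : ℝ)⁻¹ + (1 + C * (r : ℝ)⁻¹) ^ ζ) atTop
        (𝓝 (B * 0 + (1 + C * 0) ^ ζ)) :=
      (hinv.const_mul B).add ((tendsto_const_nhds.add (hinv.const_mul C)).pow ζ)
    have h3 := h1.div h2 (by simp)
    have e0 : (1 - A * 0) ^ 2 / (B * 0 + (1 + C * 0) ^ ζ) = 1 := by simp
    rw [e0] at h3
    exact h3
  have hev := (hlim.eventually (lt_mem_nhds (by linarith : 1 - η < 1))).and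
    ((eventually_ge_atTop (2 * M)).and ((tendsto_natCast_atTop_atTop (R := ℝ)).eventually_ge_atTop A))
  obtain ⟨r0, hr0⟩ := eventually_atTop.1 hev
  refine ⟨max r0 1, fun r hr b hb1 hb2 n m hm e he => ?_⟩
  obtain ⟨h1, h2, h3⟩ := hr0 r (le_trans (le_max_left _ _) hr)
  have hr1 : 1 ≤ r := le_trans (le_max_right _ _) hr
  have hrpos : (0 : ℝ) < r := by exact_mod_cast hr1
  have hb0 : 0 < b := by
    rcases Nat.eq_zero_or_pos b with h | h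
    · subst h; simp at hb1; omega
    · exact h
  have hbpos : (0 : ℝ) < b := by exact_mod_cast hb0
  have : NeZero b := ⟨hb0.ne'⟩
  have hm1 : 1 ≤ m := by rw [hm]; exact (Nat.one_le_div_iff (by omega)).2 (by omega)
  have hmpos : (0 : ℝ) < m := by exact_mod_cast hm1
  have hmr : (r : ℝ) ≤ 2 * M * m := by
    have h4 : r < M * (m + 1) := by
      rw [hm]; exact Nat.lt_mul_div_succ r (by omega)
    have h5 : M * (m + 1) ≤ M * (2 * m) := Nat.mul_le_mul_left _ (by omega)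
    have h6 : r ≤ M * (2 * m) := by omega
    calc (r : ℝ) ≤ ((M * (2 * m) : ℕ) : ℝ) := by exact_mod_cast h6
      _ = 2 * M * m := by push_cast; ring
  have hbr : (r : ℝ) ≤ b * ζ := by exact_mod_cast hb1
  have hbinv : (b : ℝ)⁻¹ ≤ ζ * (r : ℝ)⁻¹ := by
    rw [← div_eq_mul_inv, inv_eq_one_div, div_le_div_iff₀ hbpos hrpos]
    linarith
  have hb2' : (b : ℝ) ≤ C2 * r := by
    push_cast at hb2
    have : (b : ℝ) * 1 ≤ b * ζ := mul_le_mul_of_nonneg_left (by exact_mod_cast hζ) hbpos.le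
    linarith
  set lam : ℝ := (m : ℝ) / b with hlam
  have hlam0 : 0 < lam := div_pos hmpos hbpos
  have hlamK : lam ^ 2 + lam ≤ lam ^ 2 * K := by
    have h4 : 1 ≤ lam * (2 * M * C2) := by
      rw [hlam, div_mul_eq_mul_div, le_div_iff₀ hbpos, one_mul]
      calc (b : ℝ) ≤ C2 * r := hb2'
        _ ≤ C2 * (2 * M * m) := mul_le_mul_of_nonneg_left hmr hC2.le
        _ = m * (2 * M * C2) := by ring
    have h5 : lam * 1 ≤ lam * (lam * (2 * M * C2)) := mul_le_mul_of_nonneg_left h4 hlam0.le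
    rw [hK]
    nlinarith
  have hεle : ((ζ * (d * (ζ * (ζ * d + 1))) : ℕ) : ℝ) / (b : ℝ) ≤ A * (r : ℝ)⁻¹ := by
    rw [div_eq_mul_inv, hA]
    calc ((ζ * (d * (ζ * (ζ * d + 1))) : ℕ) : ℝ) * (b : ℝ)⁻¹
        ≤ ((ζ * (d * (ζ * (ζ * d + 1))) : ℕ) : ℝ) * (ζ * (r : ℝ)⁻¹) :=
          mul_le_mul_of_nonneg_left hbinv (by positivity)
      _ = _ := by push_cast; ring
  have hA1 : A * (r : ℝ)⁻¹ ≤ 1 := by
    rw [← div_eq_mul_inv, div_le_one hrpos]; exact h3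
  have hmain := main_prob (b := b) e he (hεle.trans hA1)
  set p := av (fun ω : Outc n b ζ => ind (∃ τ, Good ω (vr e τ))) with hp
  have hp0 : 0 ≤ p := av_nonneg _ fun _ => ind_nonneg _
  -- compare
  have hS : (m : ℝ) * ((lam ^ 2 + lam) ^ d) ^ ζ +
      (m : ℝ) ^ 2 * (lam ^ (2 * d) + (b : ℝ)⁻¹ * (lam ^ 2 + lam) ^ d) ^ ζ ≤
      (m : ℝ) ^ 2 * lam ^ (2 * d * ζ) * (B * (r : ℝ)⁻¹ + (1 + C * (r : ℝ)⁻¹) ^ ζ) := by
    have e1 : ((lam ^ 2 + lam) ^ d) ^ ζ ≤ lam ^ (2 * d * ζ) * K ^ (d * ζ) := by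
      rw [← pow_mul]
      refine (pow_le_pow_left₀ (by positivity) hlamK _).trans (le_of_eq ?_)
      rw [mul_pow, ← pow_mul]
      ring_nf
    have e2 : lam ^ (2 * d) + (b : ℝ)⁻¹ * (lam ^ 2 + lam) ^ d ≤
        lam ^ (2 * d) * (1 + C * (r : ℝ)⁻¹) := by
      have e3 : (lam ^ 2 + lam) ^ d ≤ lam ^ (2 * d) * K ^ d := by
        refine (pow_le_pow_left₀ (by positivity) hlamK _).trans (le_of_eq ?_)
        rw [mul_pow, ← pow_mul]
      have e4 : (b : ℝ)⁻¹ * (lam ^ 2 + lam) ^ d ≤ (ζ * (r : ℝ)⁻¹) * (lam ^ (2 * d) * K ^ d) :=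
        mul_le_mul hbinv e3 (by positivity) (by positivity)
      refine (add_le_add_right e4 (lam ^ (2 * d))).trans (le_of_eq ?_)
      rw [hC]; ring
    have e5 : (lam ^ (2 * d) + (b : ℝ)⁻¹ * (lam ^ 2 + lam) ^ d) ^ ζ ≤
        lam ^ (2 * d * ζ) * (1 + C * (r : ℝ)⁻¹) ^ ζ := by
      refine (pow_le_pow_left₀ (by positivity) e2 ζ).trans (le_of_eq ?_)
      rw [mul_pow, ← pow_mul]
    have e6 : (m : ℝ) ≤ (m : ℝ) ^ 2 * (2 * M * (r : ℝ)⁻¹) := by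
      have : 1 ≤ (m : ℝ) * (2 * M * (r : ℝ)⁻¹) := by
        rw [← div_eq_mul_inv, mul_div_assoc', le_div_iff₀ hrpos]
        linarith
      nlinarith
    have e7 : (m : ℝ) * ((lam ^ 2 + lam) ^ d) ^ ζ ≤
        ((m : ℝ) ^ 2 * (2 * M * (r : ℝ)⁻¹)) * (lam ^ (2 * d * ζ) * K ^ (d * ζ)) :=
      mul_le_mul e6 e1 (by positivity) (by positivity)
    have e8 := mul_le_mul_of_nonneg_left e5 (by positivity : (0 : ℝ) ≤ (m : ℝ) ^ 2)
    refine (add_le_add e7 e8).trans (le_of_eq ?_)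
    rw [hB]; ring
  have hT : ((1 - A * (r : ℝ)⁻¹) * (m * lam ^ (d * ζ))) ^ 2 ≤
      ((1 - ((ζ * (d * (ζ * (ζ * d + 1))) : ℕ) : ℝ) / (b : ℝ)) * (m * (lam ^ d) ^ ζ)) ^ 2 := by
    rw [← pow_mul]
    refine pow_le_pow_left₀ (mul_nonneg (by linarith) (by positivity)) ?_ 2
    exact mul_le_mul_of_nonneg_right (by linarith) (by positivity)
  have hU := hT.trans (hmain.trans (mul_le_mul_of_nonneg_left hS hp0))
  have e9 : ((1 - A * (r : ℝ)⁻¹) * (m * lam ^ (d * ζ))) ^ 2 =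
      (m : ℝ) ^ 2 * lam ^ (2 * d * ζ) * (1 - A * (r : ℝ)⁻¹) ^ 2 := by
    rw [mul_pow, mul_pow, ← pow_mul]; ring_nf
  rw [e9] at hU
  have hpos : 0 < (m : ℝ) ^ 2 * lam ^ (2 * d * ζ) := by positivity
  have hDpos : 0 < B * (r : ℝ)⁻¹ + (1 + C * (r : ℝ)⁻¹) ^ ζ := by positivity
  have hV : (1 - A * (r : ℝ)⁻¹) ^ 2 ≤ p * (B * (r : ℝ)⁻¹ + (1 + C * (r : ℝ)⁻¹) ^ ζ) := by
    refine le_of_mul_le_mul_left ?_ hpos
    linarith
  have hW : (1 - A * (r : ℝ)⁻¹) ^ 2 / (B * (r : ℝ)⁻¹ + (1 + C * (r : ℝ)⁻¹) ^ ζ) ≤ p := by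
    rw [div_le_iff₀ hDpos]; exact hV
  linarith

end Pool.Agent.Q214.MP59a
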