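import Mathlib

set_option autoImplicit false

namespace Pool.Agent.Q214.MP59a

/-- Average over a finite type. -/
noncomputable def av {Ω : Type} [Fintype Ω] (f : Ω → ℝ) : ℝ := (∑ ω, f ω) / Fintype.card Ω

variable {Ω Ω' Ω'' : Type} [Fintype Ω] [Fintype Ω'] [Fintype Ω'']

theorem av_nonneg (f : Ω → ℝ) (h : ∀ ω, 0 ≤ f ω) : 0 ≤ av f :=
  div_nonneg (Finset.sum_nonneg fun ω _ => h ω) (Nat.cast_nonneg _)

theorem av_mono (f g : Ω → ℝ) (h : ∀ ω, f ω ≤ g ω) : av f ≤ av g :=
  div_le_div_of_nonneg_right (Finset.sum_le_sum fun ω _ => h ω) (Nat.cast_nonneg _)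

theorem av_const [Nonempty Ω] (c : ℝ) : av (fun _ : Ω => c) = c := by
  unfold av
  have : (Fintype.card Ω : ℝ) ≠ 0 := by exact_mod_cast Fintype.card_ne_zero
  simp only [Finset.sum_const, Finset.card_univ, nsmul_eq_mul]
  field_simp

theorem av_mul_left (c : ℝ) (f : Ω → ℝ) : av (fun ω => c * f ω) = c * av f := by
  unfold av
  rw [← Finset.mul_sum, mul_div_assoc]

theorem av_add (f g : Ω → ℝ) : av (fun ω => f ω + g ω) = av f + av g := by
  unfold av
  rw [Finset.sum_add_distrib, add_div]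

theorem av_sub (f g : Ω → ℝ) : av (fun ω => f ω - g ω) = av f - av g := by
  unfold av
  rw [Finset.sum_sub_distrib, sub_div]

theorem av_sum {ι : Type} (s : Finset ι) (f : ι → Ω → ℝ) :
    av (fun ω => ∑ i ∈ s, f i ω) = ∑ i ∈ s, av (f i) := by
  unfold av
  rw [Finset.sum_comm, Finset.sum_div]

/-- `π` pushes the uniform measure to the uniform measure. -/
def Unif (π : Ω → Ω') : Prop := ∀ H : Ω' → ℝ, av (fun ω => H (π ω)) = av H

theorem Unif.comp {π : Ω → Ω'} {π' : Ω' → Ω''} (h : Unif π) (h' : Unif π') :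
    Unif (fun ω => π' (π ω)) := by
  intro H
  rw [h (fun ω' => H (π' ω')), h' H]

theorem unif_equiv (e : Ω ≃ Ω') : Unif e := by
  intro H
  unfold av
  rw [e.sum_comp H, Fintype.card_congr e]

theorem unif_fst [Nonempty Ω'] : Unif (fun p : Ω × Ω' => p.1) := by
  intro H
  unfold av
  have : (Fintype.card Ω' : ℝ) ≠ 0 := by exact_mod_cast Fintype.card_ne_zero
  rw [Fintype.sum_prod_type, Fintype.card_prod]
  simp only [Finset.sum_const, Finset.card_univ, nsmul_eq_mul]
  rw [← Finset.mul_sum]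
  push_cast
  by_cases h : (Fintype.card Ω : ℝ) = 0
  · simp [h]
  · field_simp

theorem unif_snd [Nonempty Ω] : Unif (fun p : Ω × Ω' => p.2) := by
  intro H
  have h1 := (unif_equiv (Equiv.prodComm Ω Ω')) (fun p : Ω' × Ω => H p.1)
  have h2 := unif_fst (Ω := Ω') (Ω' := Ω) H
  rw [← h2, ← h1]
  rfl

theorem unif_inj {K K' B : Type} [Fintype K] [DecidableEq K] [Fintype K'] [DecidableEq K']
    [Fintype B] [Nonempty B] (ι : K' → K) (hι : Function.Injective ι) :
    Unif (fun (ω : K → B) (k : K') => ω (ι k)) := by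
  classical
  have e1 := Equiv.piEquivPiSubtypeProd (fun k : K => k ∈ Set.range ι) (fun _ => B)
  have h1 : Unif (fun ω : K → B => (e1 ω)) := unif_equiv e1
  intro H
  let e1' := Equiv.piEquivPiSubtypeProd (fun k : K => k ∈ Set.range ι) (fun _ : K => B)
  let e2 : ({k : K // k ∈ Set.range ι} → B) ≃ (K' → B) :=
    Equiv.arrowCongr (Equiv.ofInjective ι hι).symm (Equiv.refl B)
  have h2 : Unif (fun ω : K → B => e2 (e1' ω).1) :=
    ((unif_equiv e1').comp unif_fst).comp (unif_equiv e2)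
  have h3 := h2 H
  rw [← h3]
  congr 1

theorem av_prod_mul (f : Ω → ℝ) (g : Ω' → ℝ) :
    av (fun p : Ω × Ω' => f p.1 * g p.2) = av f * av g := by
  unfold av
  rw [Fintype.sum_prod_type, Fintype.card_prod, div_mul_div_comm, Finset.sum_mul_sum]
  push_cast
  rfl

theorem av_prod_iter (f : Ω → Ω' → ℝ) :
    av (fun p : Ω × Ω' => f p.1 p.2) = av (fun ω => av (f ω)) := by
  unfold av
  rw [Fintype.sum_prod_type, Fintype.card_prod, ← Finset.sum_div, div_div]
  push_cast
  rw [mul_comm]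

theorem av_pi {K : Type} [Fintype K] [DecidableEq K] (f : K → Ω → ℝ) :
    av (fun ω : K → Ω => ∏ k, f k (ω k)) = ∏ k, av (f k) := by
  unfold av
  rw [Finset.prod_div_distrib, Finset.prod_univ_sum, Fintype.piFinset_univ, Fintype.card_fun,
    Finset.prod_const, Finset.card_univ]
  push_cast
  rfl

/-- Resampling one coordinate. -/
theorem resample {K B : Type} [Fintype K] [DecidableEq K] [Fintype B] [Nonempty B] (k0 : K)
    (f : (K → B) → ℝ) : av f = av (fun ω : K → B => av (fun a : B => f (Function.update ω k0 a))) := by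
  classical
  let e := Equiv.funSplitAt k0 B
  have hu : ∀ (ω : K → B) (a : B), Function.update ω k0 a = e.symm (a, (e ω).2) := by
    intro ω a
    rw [Equiv.eq_symm_apply]
    ext x
    · simp [e, Equiv.funSplitAt]
    · rcases x with ⟨x, hx⟩
      simp [e, Equiv.funSplitAt, Equiv.piSplitAt, Function.update_of_ne hx]
  have h1 : av f = av (fun p : B × ({k // k ≠ k0} → B) => f (e.symm p)) :=
    (unif_equiv e.symm f).symm
  rw [h1, av_prod_iter (fun a c => f (e.symm (a, c)))]
  simp only [hu]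
  have h2 := (unif_equiv e) (fun p => av fun a => f (e.symm (a, p.2)))
  rw [h2]
  have h3 := unif_snd (Ω := B) (Ω' := ({k // k ≠ k0} → B)) (fun c => av fun a => f (e.symm (a, c)))
  rw [h3]
  unfold av
  rw [← Finset.sum_div, ← Finset.sum_div, div_div, div_div, Finset.sum_comm, mul_comm]

/-- Cauchy-Schwarz, Paley-Zygmund. -/
theorem paley (Z : Ω → ℝ) : (av Z) ^ 2 ≤ av (fun ω => if Z ω = 0 then 0 else 1) *
    av (fun ω => Z ω ^ 2) := by
  unfold av
  rw [div_pow, div_mul_div_comm, ← sq]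
  refine div_le_div_of_nonneg_right ?_ (by positivity)
  have h := Finset.sum_mul_sq_le_sq_mul_sq Finset.univ (fun ω => if Z ω = 0 then (0 : ℝ) else 1) Z
  have e1 : ∑ ω, (if Z ω = 0 then (0 : ℝ) else 1) * Z ω = ∑ ω, Z ω :=
    Finset.sum_congr rfl fun ω _ => by split_ifs with h <;> simp [h]
  have e2 : ∑ ω, (if Z ω = 0 then (0 : ℝ) else 1) ^ 2 = ∑ ω, if Z ω = 0 then (0 : ℝ) else 1 :=
    Finset.sum_congr rfl fun ω _ => by split_ifs <;> simp
  rw [e1, e2] at h
  exact h

end Pool.Agent.Q214.MP59a
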