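import Pool.Agent.Q214.MP59a.Star

set_option autoImplicit false

namespace Pool.Agent.Q214.MP59a

open Classical in
/-- Indicator. -/
noncomputable def ind (p : Prop) : ℝ := if p then 1 else 0

theorem ind_nonneg (p : Prop) : 0 ≤ ind p := by unfold ind; split_ifs <;> norm_num

theorem ind_le_one (p : Prop) : ind p ≤ 1 := by unfold ind; split_ifs <;> norm_num

theorem ind_true {p : Prop} (h : p) : ind p = 1 := by unfold ind; rw [if_pos h]

theorem ind_false {p : Prop} (h : ¬ p) : ind p = 0 := by unfold ind; rw [if_neg h]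

theorem ind_eq_ite (p : Prop) [Decidable p] : ind p = if p then 1 else 0 := by
  unfold ind; congr

theorem ind_and (p q : Prop) : ind (p ∧ q) = ind p * ind q := by
  by_cases hp : p <;> by_cases hq : q <;> simp [ind, hp, hq]

theorem ind_forall {ι : Type} [Fintype ι] (p : ι → Prop) : ind (∀ i, p i) = ∏ i, ind (p i) := by
  classical
  unfold ind
  rw [Finset.prod_ite_zero]
  simp

/-- The block data. -/
def dat {n b ζ d m : ℕ} (e : Mem ζ d × Fin m → Fin n) (ω : Outc n b ζ) (j : Fin ζ) : Y d m → Fin b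
  | Sum.inl i => (ω (e (none, i)) j).2
  | Sum.inr (l, t) => (ω (e (some (j, l), t)) j).2

/-- The coordinates used. -/
def io {n ζ d m : ℕ} (e : Mem ζ d × Fin m → Fin n) : Fin ζ × Y d m → Fin n × Fin ζ
  | (j, Sum.inl i) => (e (none, i), j)
  | (j, Sum.inr (l, t)) => (e (some (j, l), t), j)

theorem io_inj {n ζ d m : ℕ} (e : Mem ζ d × Fin m → Fin n) (he : Function.Injective e) :
    Function.Injective (io e) := by
  rintro ⟨j, y⟩ ⟨j', y'⟩ h
  rcases y with i | ⟨l, t⟩ <;> rcases y' with i' | ⟨l', t'⟩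
  · simp only [io, Prod.mk.injEq] at h
    have := he h.1
    simp only [Prod.mk.injEq, true_and] at this
    rw [this, h.2]
  · simp only [io, Prod.mk.injEq] at h
    have := he h.1
    simp at this
  · simp only [io, Prod.mk.injEq] at h
    have := he h.1
    simp at this
  · simp only [io, Prod.mk.injEq] at h
    have := he h.1
    simp only [Prod.mk.injEq, Option.some.injEq] at this
    obtain ⟨⟨h1, h2⟩, h3⟩ := this
    subst h1 h2 h3
    rfl

theorem unif_dat {n b ζ d m : ℕ} [NeZero b] (e : Mem ζ d × Fin m → Fin n)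
    (he : Function.Injective e) : Unif (fun ω : Outc n b ζ => dat e ω) := by
  have h1 : Unif (fun ω : Outc n b ζ => fun k : Fin n × Fin ζ => ω k.1 k.2) :=
    unif_equiv (Equiv.curry (Fin n) (Fin ζ) (Bool × Fin b)).symm
  have h2 : Unif (fun w : Fin n × Fin ζ → Bool × Fin b => fun k => (w k).2) := by
    have h := (unif_equiv (Equiv.arrowProdEquivProdArrow (Fin n × Fin ζ) (fun _ => Bool)
      (fun _ => Fin b))).comp (unif_snd (Ω := Fin n × Fin ζ → Bool) (Ω' := Fin n × Fin ζ → Fin b))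
    exact h
  have h3 := unif_inj (K := Fin n × Fin ζ) (K' := Fin ζ × Y d m) (B := Fin b) (io e) (io_inj e he)
  have h4 : Unif (fun w : Fin ζ × Y d m → Fin b => fun j y => w (j, y)) :=
    unif_equiv (Equiv.curry (Fin ζ) (Y d m) (Fin b))
  have h := ((h1.comp h2).comp h3).comp h4
  intro H
  rw [← h H]
  congr 1
  funext ω
  congr 1
  funext j y
  rcases y with i | ⟨l, t⟩ <;> rfl

/-- The number of designated tuples. -/
noncomputable def XN {n b ζ d m : ℕ} (e : Mem ζ d × Fin m → Fin n) (ω : Outc n b ζ) : ℝ :=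
  ∑ τ : Tup ζ d m, ind (Des ω (vr e τ))

theorem XN_eq {n b ζ d m : ℕ} (e : Mem ζ d × Fin m → Fin n) (ω : Outc n b ζ) :
    XN e ω = XX (dat e ω) := by
  unfold XN XX FF Nc
  rw [Fintype.sum_prod_type]
  refine Finset.sum_congr rfl fun i _ => ?_
  have h1 : ∀ j : Fin ζ, (∏ l : Fin d, ∑ t : Fin m,
      if dat e ω j (Sum.inr (l, t)) = dat e ω j (Sum.inl i) then (1 : ℝ) else 0) =
      ∑ u : Fin d → Fin m, ∏ l : Fin d,
        if dat e ω j (Sum.inr (l, u l)) = dat e ω j (Sum.inl i) then (1 : ℝ) else 0 := by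
    intro j
    rw [Finset.prod_univ_sum, Fintype.piFinset_univ]
  simp only [h1]
  rw [Finset.prod_univ_sum, Fintype.piFinset_univ]
  refine Finset.sum_congr rfl fun U _ => ?_
  unfold Des
  rw [ind_forall]
  refine Finset.prod_congr rfl fun j _ => ?_
  rw [ind_forall]
  refine Finset.prod_congr rfl fun l _ => ?_
  rw [ind_eq_ite]
  rfl

theorem av_XN {n b ζ d m : ℕ} [NeZero b] (e : Mem ζ d × Fin m → Fin n)
    (he : Function.Injective e) :
    av (fun ω : Outc n b ζ => XN e ω) = m * (((m : ℝ) / b) ^ d) ^ ζ := by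
  simp only [XN_eq]
  rw [unif_dat e he XX, av_XX]

theorem av_XN_sq {n b ζ d m : ℕ} [NeZero b] (e : Mem ζ d × Fin m → Fin n)
    (he : Function.Injective e) :
    av (fun ω : Outc n b ζ => XN e ω ^ 2) ≤
      m * ((((m : ℝ) / b) ^ 2 + (m : ℝ) / b) ^ d) ^ ζ +
      (m : ℝ) ^ 2 * (((m : ℝ) / b) ^ (2 * d) +
        (b : ℝ)⁻¹ * (((m : ℝ) / b) ^ 2 + (m : ℝ) / b) ^ d) ^ ζ := by
  simp only [XN_eq]
  rw [unif_dat e he (fun D => XX D ^ 2)]
  exact av_XX_sq

theorem av_snd {b : ℕ} [NeZero b] (s : Fin b) :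
    av (fun a : Bool × Fin b => ind (a.2 = s)) = (b : ℝ)⁻¹ := by
  have h := unif_snd (Ω := Bool) (Ω' := Fin b) (fun a => ind (a = s))
  rw [h]
  simp only [ind_eq_ite]
  exact av_ind s

/-- A coincidence off the designated coordinates has conditional probability `1/b`. -/
theorem coincide {n b ζ d : ℕ} [NeZero b] (x : Mem ζ d → Fin n) (hx : Function.Injective x)
    (j : Fin ζ) (l : Fin d) (j' : Fin ζ) (w : Mem ζ d) (hj : j' ≠ j) (hw : w ≠ some (j, l)) :
    av (fun ω : Outc n b ζ => ind (Des ω x) *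
      ind ((ω (x (some (j, l))) j').2 = (ω (x w) j').2)) =
      (b : ℝ)⁻¹ * av (fun ω : Outc n b ζ => ind (Des ω x)) := by
  have hc : ∀ f : Outc n b ζ → ℝ, av f =
      av (fun w : Fin n × Fin ζ → Bool × Fin b => f (fun i j => w (i, j))) := by
    intro f
    exact (unif_equiv (Equiv.curry (Fin n) (Fin ζ) (Bool × Fin b)) f).symm
  rw [hc, hc (fun ω : Outc n b ζ => ind (Des ω x)), resample (x (some (j, l)), j'), ← av_mul_left]
  congr 1
  funext v
  have h1 : ∀ a : Bool × Fin b, Des (fun i k => Function.update v (x (some (j, l)), j') a (i, k)) x ↔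
      Des (fun i k => v (i, k)) x := by
    intro a
    unfold Des
    refine forall_congr' fun j1 => forall_congr' fun l1 => ?_
    have e1 : (x (some (j1, l1)), j1) ≠ (x (some (j, l)), j') := by
      intro h
      have h2 := hx (congrArg Prod.fst h)
      have h3 : j1 = j' := congrArg Prod.snd h
      simp only [Option.some.injEq, Prod.mk.injEq] at h2
      exact hj (h3.symm.trans h2.1)
    have e2 : (x none, j1) ≠ (x (some (j, l)), j') := by
      intro h
      have h2 := hx (congrArg Prod.fst h)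
      simp at h2
    beta_reduce
    rw [Function.update_of_ne e1, Function.update_of_ne e2]
  have e3 : (x w, j') ≠ (x (some (j, l)), j') := by
    intro h
    exact hw (hx (congrArg Prod.fst h))
  have h2 : (fun a : Bool × Fin b =>
      ind (Des (fun i k => Function.update v (x (some (j, l)), j') a (i, k)) x) *
      ind ((Function.update v (x (some (j, l)), j') a (x (some (j, l)), j')).2 =
        (Function.update v (x (some (j, l)), j') a (x w, j')).2)) =
      fun a => ind (Des (fun i k => v (i, k)) x) * ind (a.2 = (v (x w, j')).2) := by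
    funext a
    rw [Function.update_self, Function.update_of_ne e3]
    have := propext (h1 a)
    rw [this]
  rw [h2, av_mul_left, av_snd]
  ring

/-- The number of good tuples. -/
noncomputable def ZN {n b ζ d m : ℕ} (e : Mem ζ d × Fin m → Fin n) (ω : Outc n b ζ) : ℝ :=
  ∑ τ : Tup ζ d m, ind (Good ω (vr e τ))

theorem good_ge {n b ζ d : ℕ} (ω : Outc n b ζ) (x : Mem ζ d → Fin n) :
    ind (Des ω x) - ∑ q : Fin ζ × Fin d × Fin ζ × Mem ζ d, ind (Des ω x) *
      (ind (q.2.2.1 ≠ q.1 ∧ q.2.2.2 ≠ some (q.1, q.2.1)) *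
        ind ((ω (x (some (q.1, q.2.1))) q.2.2.1).2 = (ω (x q.2.2.2) q.2.2.1).2)) ≤
      ind (Good ω x) := by
  have hnn : ∀ q : Fin ζ × Fin d × Fin ζ × Mem ζ d, 0 ≤ ind (Des ω x) *
      (ind (q.2.2.1 ≠ q.1 ∧ q.2.2.2 ≠ some (q.1, q.2.1)) *
        ind ((ω (x (some (q.1, q.2.1))) q.2.2.1).2 = (ω (x q.2.2.2) q.2.2.1).2)) := fun q =>
    mul_nonneg (ind_nonneg _) (mul_nonneg (ind_nonneg _) (ind_nonneg _))
  by_cases hD : Des ω x
  · by_cases hG : Good ω x
    · rw [ind_true hG, ind_true hD]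
      have := Finset.sum_nonneg (fun q (_ : q ∈ Finset.univ) => hnn q)
      rw [ind_true hD] at this
      linarith
    · rw [ind_false hG]
      have : ∃ j l j' w, j' ≠ j ∧ w ≠ some (j, l) ∧
          (ω (x (some (j, l))) j').2 = (ω (x w) j').2 := by
        by_contra hcon
        push Not at hcon
        exact hG ⟨hD, fun j l j' w h1 h2 => hcon j l j' w h1 h2⟩
      obtain ⟨j, l, j', w, h1, h2, h3⟩ := this
      have h4 := Finset.single_le_sum (fun q (_ : q ∈ Finset.univ) => hnn q)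
        (Finset.mem_univ (j, l, j', w))
      simp only at h4
      rw [ind_true hD, ind_true (⟨h1, h2⟩ : j' ≠ j ∧ w ≠ some (j, l)), ind_true h3] at h4
      rw [ind_true hD]
      linarith
  · rw [ind_false hD]
    have := ind_nonneg (Good ω x)
    simpa using this

theorem good_le {n b ζ d : ℕ} (ω : Outc n b ζ) (x : Mem ζ d → Fin n) :
    ind (Good ω x) ≤ ind (Des ω x) := by
  by_cases hG : Good ω x
  · rw [ind_true hG, ind_true hG.1]
  · rw [ind_false hG]; exact ind_nonneg _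

theorem av_good {n b ζ d : ℕ} [NeZero b] (x : Mem ζ d → Fin n) (hx : Function.Injective x) :
    (1 - (ζ * (d * (ζ * (ζ * d + 1))) : ℕ) / (b : ℝ)) * av (fun ω : Outc n b ζ => ind (Des ω x)) ≤
      av (fun ω : Outc n b ζ => ind (Good ω x)) := by
  refine le_trans ?_ (av_mono _ _ fun ω => good_ge ω x)
  rw [av_sub, av_sum]
  have h0 : 0 ≤ av (fun ω : Outc n b ζ => ind (Des ω x)) := av_nonneg _ fun _ => ind_nonneg _
  have h1 : ∀ q : Fin ζ × Fin d × Fin ζ × Mem ζ d, av (fun ω : Outc n b ζ => ind (Des ω x) *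
      (ind (q.2.2.1 ≠ q.1 ∧ q.2.2.2 ≠ some (q.1, q.2.1)) *
        ind ((ω (x (some (q.1, q.2.1))) q.2.2.1).2 = (ω (x q.2.2.2) q.2.2.1).2))) ≤
      (b : ℝ)⁻¹ * av (fun ω : Outc n b ζ => ind (Des ω x)) := by
    intro q
    by_cases h : q.2.2.1 ≠ q.1 ∧ q.2.2.2 ≠ some (q.1, q.2.1)
    · rw [ind_true h]
      simp only [one_mul]
      exact (coincide x hx q.1 q.2.1 q.2.2.1 q.2.2.2 h.1 h.2).le
    · rw [ind_false h]
      simp only [zero_mul, mul_zero]
      have : av (fun _ : Outc n b ζ => (0 : ℝ)) = 0 := by unfold av; simp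
      rw [this]
      positivity
  have h2 := Finset.sum_le_sum fun q (_ : q ∈ (Finset.univ : Finset (Fin ζ × Fin d × Fin ζ × Mem ζ d)))
    => h1 q
  rw [Finset.sum_const, Finset.card_univ, nsmul_eq_mul] at h2
  have h3 : (Fintype.card (Fin ζ × Fin d × Fin ζ × Mem ζ d) : ℝ) =
      ((ζ * (d * (ζ * (ζ * d + 1))) : ℕ) : ℝ) := by
    simp [Fintype.card_prod, Fintype.card_option]
  rw [h3] at h2
  have h4 : (1 - (ζ * (d * (ζ * (ζ * d + 1))) : ℕ) / (b : ℝ)) *
      av (fun ω : Outc n b ζ => ind (Des ω x)) = av (fun ω : Outc n b ζ => ind (Des ω x)) -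
      ((ζ * (d * (ζ * (ζ * d + 1))) : ℕ) : ℝ) *
        ((b : ℝ)⁻¹ * av (fun ω : Outc n b ζ => ind (Des ω x))) := by
    rw [div_eq_mul_inv]; ring
  rw [h4]
  linarith

/-- Lower bound for the probability of a good tuple. -/
theorem main_prob {n b ζ d m : ℕ} [NeZero b] (e : Mem ζ d × Fin m → Fin n)
    (he : Function.Injective e) (hε : (ζ * (d * (ζ * (ζ * d + 1))) : ℕ) / (b : ℝ) ≤ 1) :
    ((1 - (ζ * (d * (ζ * (ζ * d + 1))) : ℕ) / (b : ℝ)) * (m * (((m : ℝ) / b) ^ d) ^ ζ)) ^ 2 ≤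
      av (fun ω : Outc n b ζ => ind (∃ τ, Good ω (vr e τ))) *
      (m * ((((m : ℝ) / b) ^ 2 + (m : ℝ) / b) ^ d) ^ ζ +
      (m : ℝ) ^ 2 * (((m : ℝ) / b) ^ (2 * d) +
        (b : ℝ)⁻¹ * (((m : ℝ) / b) ^ 2 + (m : ℝ) / b) ^ d) ^ ζ) := by
  have hZ : (1 - (ζ * (d * (ζ * (ζ * d + 1))) : ℕ) / (b : ℝ)) * (m * (((m : ℝ) / b) ^ d) ^ ζ) ≤
      av (fun ω : Outc n b ζ => ZN e ω) := by
    rw [← av_XN e he]
    unfold XN ZN
    rw [av_sum, av_sum, Finset.mul_sum]
    exact Finset.sum_le_sum fun τ _ => av_good _ (vr_inj e he τ)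
  have hZX : ∀ ω : Outc n b ζ, ZN e ω ≤ XN e ω := fun ω =>
    Finset.sum_le_sum fun τ _ => good_le ω _
  have hZ0 : ∀ ω : Outc n b ζ, 0 ≤ ZN e ω := fun ω => Finset.sum_nonneg fun _ _ => ind_nonneg _
  have h0 : 0 ≤ (1 - (ζ * (d * (ζ * (ζ * d + 1))) : ℕ) / (b : ℝ)) *
      (m * (((m : ℝ) / b) ^ d) ^ ζ) := mul_nonneg (by linarith) (by positivity)
  refine (pow_le_pow_left₀ h0 hZ 2).trans ((paley _).trans ?_)
  have h1 : av (fun ω : Outc n b ζ => if ZN e ω = 0 then 0 else 1) ≤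
      av (fun ω : Outc n b ζ => ind (∃ τ, Good ω (vr e τ))) := by
    refine av_mono _ _ fun ω => ?_
    split_ifs with h
    · exact ind_nonneg _
    · by_cases hex : ∃ τ, Good ω (vr e τ)
      · rw [ind_true hex]
      · exfalso
        apply h
        unfold ZN
        refine Finset.sum_eq_zero fun τ _ => ind_false fun hG => hex ⟨τ, hG⟩
  have h2 : av (fun ω : Outc n b ζ => ZN e ω ^ 2) ≤ av (fun ω : Outc n b ζ => XN e ω ^ 2) :=
    av_mono _ _ fun ω => pow_le_pow_left₀ (hZ0 ω) (hZX ω) 2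
  exact mul_le_mul h1 (h2.trans (av_XN_sq e he)) (av_nonneg _ fun _ => sq_nonneg _)
    (av_nonneg _ fun _ => ind_nonneg _)

end Pool.Agent.Q214.MP59a
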