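import Pool.Agent.Q214.MP59a.Avg

set_option autoImplicit false

namespace Pool.Agent.Q214.MP59a

/-- Number of elements of the class in position `s`. -/
def Nc {m b : ℕ} (c : Fin m → Fin b) (s : Fin b) : ℝ := ∑ t, if c t = s then (1 : ℝ) else 0

theorem Nc_nonneg {m b : ℕ} (c : Fin m → Fin b) (s : Fin b) : 0 ≤ Nc c s :=
  Finset.sum_nonneg fun _ _ => by split_ifs <;> norm_num

theorem av_ind {b : ℕ} (s : Fin b) : av (fun a : Fin b => if a = s then (1 : ℝ) else 0) = (b : ℝ)⁻¹ := by
  unfold av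
  simp

theorem av_Nc {m b : ℕ} [NeZero b] (s : Fin b) :
    av (fun c : Fin m → Fin b => Nc c s) = m / b := by
  unfold Nc
  rw [av_sum]
  have : ∀ t : Fin m, av (fun c : Fin m → Fin b => if c t = s then (1 : ℝ) else 0) = (b : ℝ)⁻¹ := by
    intro t
    have h := unif_inj (K := Fin m) (K' := Fin 1) (B := Fin b) (fun _ => t)
      (fun _ _ _ => Subsingleton.elim _ _) (fun a => if a 0 = s then (1 : ℝ) else 0)
    rw [h]
    have h2 := av_pi (K := Fin 1) (Ω := Fin b) (fun _ a => if a = s then (1 : ℝ) else 0)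
    simp only [Fin.prod_univ_one] at h2
    rw [h2, av_ind]
  simp only [this]
  rw [Finset.sum_const, Finset.card_univ, Fintype.card_fin, nsmul_eq_mul, div_eq_mul_inv]

theorem av_two {m b : ℕ} [NeZero b] (t t' : Fin m) (htt : t ≠ t') (s s' : Fin b) :
    av (fun c : Fin m → Fin b => (if c t = s then (1 : ℝ) else 0) * (if c t' = s' then 1 else 0)) =
      (b : ℝ)⁻¹ ^ 2 := by
  have hinj : Function.Injective (fun k : Fin 2 => if k = 0 then t else t') := by
    intro i j hij
    fin_cases i <;> fin_cases j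
    · rfl
    · exact absurd hij (by simpa using htt)
    · exact absurd hij (by simpa using htt.symm)
    · rfl
  have h := unif_inj (K := Fin m) (K' := Fin 2) (B := Fin b) (fun k => if k = 0 then t else t') hinj
    (fun a => (if a 0 = s then (1 : ℝ) else 0) * (if a 1 = s' then 1 else 0))
  have h2 := av_pi (K := Fin 2) (Ω := Fin b) (fun k a => if k = 0 then
    (if a = s then (1 : ℝ) else 0) else (if a = s' then (1 : ℝ) else 0))
  simp only [Fin.prod_univ_two, if_true, one_ne_zero, if_false] at h2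
  have h' : av (fun c : Fin m → Fin b => (if c t = s then (1 : ℝ) else 0) *
      (if c t' = s' then 1 else 0)) = av (fun a : Fin 2 → Fin b =>
        (if a 0 = s then (1 : ℝ) else 0) * (if a 1 = s' then 1 else 0)) := h
  rw [h', h2, av_ind, av_ind]
  ring

/-- The pair correlation. -/
noncomputable def gg (m b : ℕ) (s s' : Fin b) : ℝ :=
  av (fun c : Fin m → Fin b => Nc c s * Nc c s')

theorem gg_nonneg (m b : ℕ) (s s' : Fin b) : 0 ≤ gg m b s s' :=
  av_nonneg _ fun _ => mul_nonneg (Nc_nonneg _ _) (Nc_nonneg _ _)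

theorem gg_le (m b : ℕ) [NeZero b] (s s' : Fin b) :
    gg m b s s' ≤ ((m : ℝ) / b) ^ 2 + if s = s' then (m : ℝ) / b else 0 := by
  unfold gg Nc
  simp only [Finset.sum_mul_sum]
  rw [av_sum]
  simp only [av_sum]
  have hb0 : (0 : ℝ) ≤ (b : ℝ)⁻¹ ^ 2 := by positivity
  have key : ∀ t t' : Fin m, av (fun c : Fin m → Fin b =>
      (if c t = s then (1 : ℝ) else 0) * (if c t' = s' then 1 else 0)) ≤
      (b : ℝ)⁻¹ ^ 2 + if t = t' then (if s = s' then (b : ℝ)⁻¹ else 0) else 0 := by
    intro t t'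
    by_cases h : t = t'
    · subst h
      rw [if_pos rfl]
      by_cases hs : s = s'
      · subst hs
        rw [if_pos rfl]
        have e : (fun c : Fin m → Fin b => (if c t = s then (1 : ℝ) else 0) *
            (if c t = s then 1 else 0)) = fun c => if c t = s then (1 : ℝ) else 0 := by
          funext c; split_ifs <;> simp
        rw [e]
        have h := unif_inj (K := Fin m) (K' := Fin 1) (B := Fin b) (fun _ => t)
          (fun _ _ _ => Subsingleton.elim _ _) (fun a => if a 0 = s then (1 : ℝ) else 0)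
        rw [h]
        have h2 := av_pi (K := Fin 1) (Ω := Fin b) (fun _ a => if a = s then (1 : ℝ) else 0)
        simp only [Fin.prod_univ_one] at h2
        rw [h2, av_ind]
        linarith
      · rw [if_neg hs, add_zero]
        have e : (fun c : Fin m → Fin b => (if c t = s then (1 : ℝ) else 0) *
            (if c t = s' then 1 else 0)) = fun _ => 0 := by
          funext c
          by_cases h1 : c t = s
          · rw [if_neg (fun h2 => hs (h1.symm.trans h2))]; simp
          · rw [if_neg h1]; simp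
        rw [e]
        unfold av
        simp only [Finset.sum_const_zero, zero_div]
        exact hb0
    · rw [if_neg h, add_zero, av_two t t' h]
  calc ∑ t, ∑ t', av (fun c : Fin m → Fin b =>
        (if c t = s then (1 : ℝ) else 0) * (if c t' = s' then 1 else 0))
      ≤ ∑ t : Fin m, ∑ t' : Fin m,
          ((b : ℝ)⁻¹ ^ 2 + if t = t' then (if s = s' then (b : ℝ)⁻¹ else 0) else 0) :=
        Finset.sum_le_sum fun t _ => Finset.sum_le_sum fun t' _ => key t t'
    _ = ((m : ℝ) / b) ^ 2 + if s = s' then (m : ℝ) / b else 0 := by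
        simp only [Finset.sum_add_distrib, Finset.sum_const, Finset.card_univ, Fintype.card_fin,
          nsmul_eq_mul, Finset.sum_ite_eq, Finset.mem_univ, if_true]
        split_ifs <;> ring

/-- The data of one block. -/
abbrev Y (d m : ℕ) : Type := Fin m ⊕ (Fin d × Fin m)

/-- The number of stars in a block with a given root. -/
def FF {d m b : ℕ} (D : Y d m → Fin b) (i : Fin m) : ℝ :=
  ∏ l : Fin d, Nc (fun t => D (Sum.inr (l, t))) (D (Sum.inl i))

theorem FF_nonneg {d m b : ℕ} (D : Y d m → Fin b) (i : Fin m) : 0 ≤ FF D i :=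
  Finset.prod_nonneg fun _ _ => Nc_nonneg _ _

/-- Splitting the data of a block into roots and children. -/
theorem av_Y {d m b : ℕ} (H : (Fin m → Fin b) → (Fin d → Fin m → Fin b) → ℝ) :
    av (fun D : Y d m → Fin b => H (fun i => D (Sum.inl i)) (fun l t => D (Sum.inr (l, t)))) =
      av (fun A : Fin m → Fin b => av (fun C : Fin d → Fin m → Fin b => H A C)) := by
  rw [← av_prod_iter]
  let e : (Y d m → Fin b) ≃ (Fin m → Fin b) × (Fin d → Fin m → Fin b) :=
    (Equiv.sumArrowEquivProdArrow (Fin m) (Fin d × Fin m) (Fin b)).trans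
      (Equiv.prodCongr (Equiv.refl _) (Equiv.curry _ _ _))
  exact unif_equiv e (fun p => H p.1 p.2)

theorem av_FF {d m b : ℕ} [NeZero b] (i : Fin m) :
    av (fun D : Y d m → Fin b => FF D i) = ((m : ℝ) / b) ^ d := by
  unfold FF
  rw [av_Y (fun A C => ∏ l : Fin d, Nc (C l) (A i))]
  have : ∀ A : Fin m → Fin b, av (fun C : Fin d → Fin m → Fin b => ∏ l, Nc (C l) (A i)) =
      ((m : ℝ) / b) ^ d := by
    intro A
    rw [av_pi (fun (_ : Fin d) (c : Fin m → Fin b) => Nc c (A i))]
    simp only [av_Nc, Finset.prod_const, Finset.card_univ, Fintype.card_fin]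
  simp only [this]
  exact av_const _

theorem av_FF_two {d m b : ℕ} (i i' : Fin m) :
    av (fun D : Y d m → Fin b => FF D i * FF D i') =
      av (fun A : Fin m → Fin b => gg m b (A i) (A i') ^ d) := by
  unfold FF
  rw [av_Y (fun A C => (∏ l : Fin d, Nc (C l) (A i)) * ∏ l : Fin d, Nc (C l) (A i'))]
  congr 1
  funext A
  simp only [← Finset.prod_mul_distrib]
  rw [av_pi (fun (_ : Fin d) (c : Fin m → Fin b) => Nc c (A i) * Nc c (A i'))]
  simp only [Finset.prod_const, Finset.card_univ, Fintype.card_fin]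
  rfl

theorem av_FF_same {d m b : ℕ} [NeZero b] (i : Fin m) :
    av (fun D : Y d m → Fin b => FF D i * FF D i) ≤ (((m : ℝ) / b) ^ 2 + (m : ℝ) / b) ^ d := by
  rw [av_FF_two]
  refine (av_mono _ (fun _ => (((m : ℝ) / b) ^ 2 + (m : ℝ) / b) ^ d) fun A => ?_).trans
    (av_const _).le
  have h := gg_le m b (A i) (A i)
  rw [if_pos rfl] at h
  exact pow_le_pow_left₀ (gg_nonneg _ _ _ _) h d

theorem av_FF_diff {d m b : ℕ} [NeZero b] (i i' : Fin m) (hii : i ≠ i') :
    av (fun D : Y d m → Fin b => FF D i * FF D i') ≤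
      ((m : ℝ) / b) ^ (2 * d) + (b : ℝ)⁻¹ * (((m : ℝ) / b) ^ 2 + (m : ℝ) / b) ^ d := by
  rw [av_FF_two]
  have hinj : Function.Injective (![i, i'] : Fin 2 → Fin m) := by
    intro x y hxy
    fin_cases x <;> fin_cases y
    · rfl
    · exact absurd hxy hii
    · exact absurd hxy hii.symm
    · rfl
  have h := unif_inj (K := Fin m) (K' := Fin 2) (B := Fin b) ![i, i'] hinj
    (fun a => gg m b (a 0) (a 1) ^ d)
  simp only [Matrix.cons_val_zero, Matrix.cons_val_one] at h
  rw [h]
  have hle : ∀ a : Fin 2 → Fin b, gg m b (a 0) (a 1) ^ d ≤ ((m : ℝ) / b) ^ (2 * d) +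
      (if a 0 = a 1 then 1 else 0) * (((m : ℝ) / b) ^ 2 + (m : ℝ) / b) ^ d := by
    intro a
    have h1 := gg_le m b (a 0) (a 1)
    by_cases ha : a 0 = a 1
    · rw [if_pos ha] at h1 ⊢
      have := pow_le_pow_left₀ (gg_nonneg _ _ _ _) h1 d
      have h2 : 0 ≤ ((m : ℝ) / b) ^ (2 * d) := by positivity
      linarith
    · rw [if_neg ha] at h1 ⊢
      have := pow_le_pow_left₀ (gg_nonneg _ _ _ _) h1 d
      rw [add_zero, ← pow_mul] at this
      linarith
  refine (av_mono _ _ hle).trans ?_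
  rw [av_add, av_const]
  have e : av (fun a : Fin 2 → Fin b => (if a 0 = a 1 then (1 : ℝ) else 0) *
      (((m : ℝ) / b) ^ 2 + (m : ℝ) / b) ^ d) =
      (((m : ℝ) / b) ^ 2 + (m : ℝ) / b) ^ d *
        av (fun a : Fin 2 → Fin b => if a 0 = a 1 then (1 : ℝ) else 0) := by
    rw [← av_mul_left]
    congr 1
    funext a
    ring
  rw [e]
  have e2 : av (fun a : Fin 2 → Fin b => if a 0 = a 1 then (1 : ℝ) else 0) = (b : ℝ)⁻¹ := by
    rw [resample (0 : Fin 2)]
    simp only [Function.update_self, ne_eq, one_ne_zero, not_false_eq_true,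
      Function.update_of_ne]
    have : ∀ ω : Fin 2 → Fin b, av (fun a : Fin b => if a = ω 1 then (1 : ℝ) else 0) = (b : ℝ)⁻¹ :=
      fun ω => av_ind _
    simp only [this]
    exact av_const _
  rw [e2]
  linarith [mul_comm (b : ℝ)⁻¹ ((((m : ℝ) / b) ^ 2 + (m : ℝ) / b) ^ d)]

/-- The number of stars. -/
def XX {ζ d m b : ℕ} (D : Fin ζ → Y d m → Fin b) : ℝ := ∑ i : Fin m, ∏ j, FF (D j) i

theorem av_XX {ζ d m b : ℕ} [NeZero b] :
    av (fun D : Fin ζ → Y d m → Fin b => XX D) = m * (((m : ℝ) / b) ^ d) ^ ζ := by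
  unfold XX
  rw [av_sum]
  have : ∀ i : Fin m, av (fun D : Fin ζ → Y d m → Fin b => ∏ j, FF (D j) i) =
      (((m : ℝ) / b) ^ d) ^ ζ := by
    intro i
    rw [av_pi (fun (_ : Fin ζ) (D : Y d m → Fin b) => FF D i)]
    simp only [av_FF, Finset.prod_const, Finset.card_univ, Fintype.card_fin]
  simp only [this, Finset.sum_const, Finset.card_univ, Fintype.card_fin, nsmul_eq_mul]

theorem av_XX_sq {ζ d m b : ℕ} [NeZero b] :
    av (fun D : Fin ζ → Y d m → Fin b => XX D ^ 2) ≤
      m * ((((m : ℝ) / b) ^ 2 + (m : ℝ) / b) ^ d) ^ ζ +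
      (m : ℝ) ^ 2 * (((m : ℝ) / b) ^ (2 * d) +
        (b : ℝ)⁻¹ * (((m : ℝ) / b) ^ 2 + (m : ℝ) / b) ^ d) ^ ζ := by
  have e : (fun D : Fin ζ → Y d m → Fin b => XX D ^ 2) = fun D =>
      ∑ i : Fin m, ∑ i' : Fin m, ∏ j, (FF (D j) i * FF (D j) i') := by
    funext D
    unfold XX
    rw [sq, Finset.sum_mul_sum]
    refine Finset.sum_congr rfl fun i _ => Finset.sum_congr rfl fun i' _ => ?_
    rw [Finset.prod_mul_distrib]
  rw [e, av_sum]
  simp only [av_sum]
  have h1 : ∀ i i' : Fin m, av (fun D : Fin ζ → Y d m → Fin b => ∏ j, (FF (D j) i * FF (D j) i')) =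
      (av fun D : Y d m → Fin b => FF D i * FF D i') ^ ζ := by
    intro i i'
    rw [av_pi (fun (_ : Fin ζ) (D : Y d m → Fin b) => FF D i * FF D i')]
    simp only [Finset.prod_const, Finset.card_univ, Fintype.card_fin]
  simp only [h1]
  have h0 : ∀ i i' : Fin m, 0 ≤ av fun D : Y d m → Fin b => FF D i * FF D i' := fun i i' =>
    av_nonneg _ fun D => mul_nonneg (FF_nonneg _ _) (FF_nonneg _ _)
  have key : ∀ i i' : Fin m, (av fun D : Y d m → Fin b => FF D i * FF D i') ^ ζ ≤
      (((m : ℝ) / b) ^ (2 * d) + (b : ℝ)⁻¹ * (((m : ℝ) / b) ^ 2 + (m : ℝ) / b) ^ d) ^ ζ +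
      if i = i' then ((((m : ℝ) / b) ^ 2 + (m : ℝ) / b) ^ d) ^ ζ else 0 := by
    intro i i'
    by_cases h : i = i'
    · subst h
      rw [if_pos rfl]
      have h2 := pow_le_pow_left₀ (h0 i i) (av_FF_same (b := b) i) ζ
      have h3 : 0 ≤ (((m : ℝ) / b) ^ (2 * d) +
        (b : ℝ)⁻¹ * (((m : ℝ) / b) ^ 2 + (m : ℝ) / b) ^ d) ^ ζ := by positivity
      linarith
    · rw [if_neg h, add_zero]
      exact pow_le_pow_left₀ (h0 i i') (av_FF_diff i i' h) ζ
  refine (Finset.sum_le_sum fun i _ => Finset.sum_le_sum fun i' _ => key i i').trans (le_of_eq ?_)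
  simp only [Finset.sum_add_distrib, Finset.sum_const, Finset.card_univ, Fintype.card_fin,
    nsmul_eq_mul, Finset.sum_ite_eq, Finset.mem_univ, if_true]
  ring

end Pool.Agent.Q214.MP59a
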