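import Pool.Agent.Q214.MP59a.Second

set_option autoImplicit false

namespace Pool.Agent.Q214.MP59a

/-- Outcomes: signs and positions. -/
abbrev Outc (n b ζ : ℕ) : Type := Fin n → Fin ζ → Bool × Fin b

/-- Members of a star. -/
abbrev Mem (ζ d : ℕ) : Type := Option (Fin ζ × Fin d)

/-- Tuples. -/
abbrev Tup (ζ d m : ℕ) : Type := Fin m × (Fin ζ → Fin d → Fin m)

/-- The variables of a tuple. -/
def vr {n ζ d m : ℕ} (e : Mem ζ d × Fin m → Fin n) (τ : Tup ζ d m) : Mem ζ d → Fin n
  | none => e (none, τ.1)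
  | some (j, l) => e (some (j, l), τ.2 j l)

theorem vr_inj {n ζ d m : ℕ} (e : Mem ζ d × Fin m → Fin n) (he : Function.Injective e)
    (τ : Tup ζ d m) : Function.Injective (vr e τ) := by
  intro v w h
  rcases v with _ | ⟨j, l⟩ <;> rcases w with _ | ⟨j', l'⟩
  · rfl
  · have := congrArg Prod.fst (he h)
    simp at this
  · have := congrArg Prod.fst (he h)
    simp at this
  · exact congrArg Prod.fst (he h)

/-- The designated event. -/
def Des {n b ζ d : ℕ} (ω : Outc n b ζ) (x : Mem ζ d → Fin n) : Prop :=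
  ∀ j l, (ω (x (some (j, l))) j).2 = (ω (x none) j).2

/-- No further coincidence. -/
def Good {n b ζ d : ℕ} (ω : Outc n b ζ) (x : Mem ζ d → Fin n) : Prop :=
  Des ω x ∧ ∀ j l j' w, j' ≠ j → w ≠ some (j, l) →
    (ω (x (some (j, l))) j').2 ≠ (ω (x w) j').2

/-- Signs. -/
def sg {n b ζ : ℕ} (ω : Outc n b ζ) (i : Fin n) (j : Fin ζ) : ℝ := if (ω i j).1 then 1 else -1

theorem sg_sq {n b ζ : ℕ} (ω : Outc n b ζ) (i : Fin n) (j : Fin ζ) : sg ω i j * sg ω i j = 1 := by
  unfold sg
  split_ifs <;> norm_num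

/-- Coefficients. -/
noncomputable def coef {n b ζ d : ℕ} (ω : Outc n b ζ) (x : Mem ζ d → Fin n) : Mem ζ d → ℝ
  | none => 1
  | some (j, l) => -(sg ω (x (some (j, l))) j * sg ω (x none) j) / d

/-- The energy of a block. -/
theorem block {ι : Type} [Fintype ι] [DecidableEq ι] {b : ℕ} (a : ι → ℝ) (p : ι → Fin b) :
    ∑ s, (∑ v, if p v = s then a v else 0) ^ 2 = ∑ v, a v * ∑ w, if p w = p v then a w else 0 := by
  have h : ∀ s, (∑ v, if p v = s then a v else 0) ^ 2 =
      ∑ v, (if p v = s then a v else 0) * ∑ w, if p w = s then a w else 0 := by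
    intro s
    rw [sq, Finset.sum_mul]
  simp only [h]
  rw [Finset.sum_comm]
  refine Finset.sum_congr rfl fun v _ => ?_
  simp only [ite_mul, zero_mul]
  rw [Finset.sum_ite_eq]
  simp

theorem sum_mem {ζ d : ℕ} (f : Mem ζ d → ℝ) :
    ∑ v, f v = f none + ∑ j, ∑ l, f (some (j, l)) := by
  rw [Fintype.sum_option, Fintype.sum_prod_type]

/-- The energy of the test vector. -/
theorem energy {n b ζ d : ℕ} (hd : 1 ≤ d) (ω : Outc n b ζ) (x : Mem ζ d → Fin n)
    (hG : Good ω x) (j' : Fin ζ) :
    ∑ s, (∑ v, if (ω (x v) j').2 = s then coef ω x v * sg ω (x v) j' else 0) ^ 2 =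
      ((ζ : ℝ) - 1) / d := by
  classical
  rw [block (fun v => coef ω x v * sg ω (x v) j') (fun v => (ω (x v) j').2)]
  have hd0 : (d : ℝ) ≠ 0 := by positivity
  set a : Mem ζ d → ℝ := fun v => coef ω x v * sg ω (x v) j' with ha
  -- the sum over the check of the block is zero
  have hC : a none + ∑ l, a (some (j', l)) = 0 := by
    have : ∀ l, a (some (j', l)) = -(sg ω (x none) j') / d := by
      intro l
      simp only [ha, coef]
      have := sg_sq ω (x (some (j', l))) j'
      calc -(sg ω (x (some (j', l))) j' * sg ω (x none) j') / d * sg ω (x (some (j', l))) j'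
          = -(sg ω (x (some (j', l))) j' * sg ω (x (some (j', l))) j') * sg ω (x none) j' / d := by
            ring
        _ = -(sg ω (x none) j') / d := by rw [this]; ring
    simp only [this, Finset.sum_const, Finset.card_univ, Fintype.card_fin, nsmul_eq_mul]
    simp only [ha, coef]
    field_simp
    ring
  have hsq : ∀ j l, a (some (j, l)) * a (some (j, l)) = 1 / (d : ℝ) ^ 2 := by
    intro j l
    simp only [ha, coef]
    have h1 := sg_sq ω (x (some (j, l))) j
    have h2 := sg_sq ω (x none) j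
    have h3 := sg_sq ω (x (some (j, l))) j'
    calc -(sg ω (x (some (j, l))) j * sg ω (x none) j) / d * sg ω (x (some (j, l))) j' *
          (-(sg ω (x (some (j, l))) j * sg ω (x none) j) / d * sg ω (x (some (j, l))) j')
        = (sg ω (x (some (j, l))) j * sg ω (x (some (j, l))) j) *
          (sg ω (x none) j * sg ω (x none) j) *
          (sg ω (x (some (j, l))) j' * sg ω (x (some (j, l))) j') / (d : ℝ) ^ 2 := by ring
      _ = 1 / (d : ℝ) ^ 2 := by rw [h1, h2, h3]; ring
  have hoff : ∀ j l, j' ≠ j → (∑ w, if (ω (x w) j').2 = (ω (x (some (j, l))) j').2 then a w else 0) =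
      a (some (j, l)) := by
    intro j l hj
    rw [Finset.sum_eq_single (some (j, l))]
    · rw [if_pos rfl]
    · intro w _ hw
      rw [if_neg]
      exact fun h => hG.2 j l j' w hj hw h.symm
    · intro h; exact absurd (Finset.mem_univ _) h
  have hin : ∀ v : Mem ζ d, (v = none ∨ ∃ l, v = some (j', l)) →
      (∑ w, if (ω (x w) j').2 = (ω (x v) j').2 then a w else 0) = 0 := by
    intro v hv
    have hpv : (ω (x v) j').2 = (ω (x none) j').2 := by
      rcases hv with rfl | ⟨l, rfl⟩
      · rfl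
      · exact hG.1 j' l
    rw [sum_mem, hpv, if_pos rfl]
    refine Eq.trans ?_ hC
    congr 1
    rw [← Finset.add_sum_erase _ _ (Finset.mem_univ j')]
    have h1 : ∑ l, (if (ω (x (some (j', l))) j').2 = (ω (x none) j').2 then a (some (j', l)) else 0)
        = ∑ l, a (some (j', l)) :=
      Finset.sum_congr rfl fun l _ => by rw [if_pos (hG.1 j' l)]
    have h2 : ∑ j ∈ Finset.univ.erase j', ∑ l, (if (ω (x (some (j, l))) j').2 =
        (ω (x none) j').2 then a (some (j, l)) else 0) = 0 := by
      refine Finset.sum_eq_zero fun j hj => Finset.sum_eq_zero fun l _ => ?_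
      rw [if_neg]
      exact hG.2 j l j' none (Finset.ne_of_mem_erase hj).symm (by simp)
    rw [h1, h2, add_zero]
  rw [sum_mem]
  rw [hin none (Or.inl rfl), mul_zero, zero_add, ← Finset.add_sum_erase _ _ (Finset.mem_univ j')]
  have h1 : ∑ l, a (some (j', l)) * (∑ w, if (ω (x w) j').2 = (ω (x (some (j', l))) j').2
      then a w else 0) = 0 :=
    Finset.sum_eq_zero fun l _ => by rw [hin _ (Or.inr ⟨l, rfl⟩), mul_zero]
  have h2 : ∑ j ∈ Finset.univ.erase j', ∑ l, a (some (j, l)) * (∑ w, if (ω (x w) j').2 =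
      (ω (x (some (j, l))) j').2 then a w else 0) = ((ζ : ℝ) - 1) / d := by
    have : ∀ j ∈ Finset.univ.erase j', ∑ l, a (some (j, l)) * (∑ w, if (ω (x w) j').2 =
        (ω (x (some (j, l))) j').2 then a w else 0) = 1 / (d : ℝ) := by
      intro j hj
      have hj' : j' ≠ j := (Finset.ne_of_mem_erase hj).symm
      have : ∀ l, a (some (j, l)) * (∑ w, if (ω (x w) j').2 = (ω (x (some (j, l))) j').2
          then a w else 0) = 1 / (d : ℝ) ^ 2 := fun l => by rw [hoff j l hj', hsq]
      simp only [this, Finset.sum_const, Finset.card_univ, Fintype.card_fin, nsmul_eq_mul]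
      field_simp
    rw [Finset.sum_congr rfl this, Finset.sum_const, Finset.card_erase_of_mem (Finset.mem_univ _),
      Finset.card_univ, Fintype.card_fin, nsmul_eq_mul]
    have hζ : 1 ≤ ζ := lt_of_le_of_lt (Nat.zero_le _) j'.2
    rw [Nat.cast_sub hζ]
    push_cast
    ring
  have h1' : ∑ l, a (some (j', l)) * (∑ w, if (ω (x w) j').2 = (ω (x (some (j', l))) j').2
      then coef ω x w * sg ω (x w) j' else 0) = 0 := h1
  have h2' : ∑ j ∈ Finset.univ.erase j', ∑ l, a (some (j, l)) * (∑ w, if (ω (x w) j').2 =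
      (ω (x (some (j, l))) j').2 then coef ω x w * sg ω (x w) j' else 0) = ((ζ : ℝ) - 1) / d := h2
  linarith

end Pool.Agent.Q214.MP59a
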